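import Mathlib

/-!
# MP_6ebba1_al, Q2: a non-diagonalizable admissible map for a tridiagonal pair
-/

set_option autoImplicit false

namespace Pool.Agent.Results.MP_6ebba1_al.NotDiagonalizable

open Module Matrix

/-- `A, B = A^*` is a tridiagonal pair, with fixed orderings `V_i`, `V^*_i` of the eigenspaces given
by the lists `θ`, `θs` of the distinct eigenvalues. -/
structure TDPair {K V : Type*} [Field K] [AddCommGroup V] [Module K V] (d : ℕ)
    (A B : Module.End K V) (θ θs : Fin (d + 1) → K) : Prop where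
  inj : Function.Injective θ
  injs : Function.Injective θs
  ne : ∀ i, End.eigenspace A (θ i) ≠ ⊥
  nes : ∀ i, End.eigenspace B (θs i) ≠ ⊥
  top : ⨆ i, End.eigenspace A (θ i) = ⊤
  tops : ⨆ i, End.eigenspace B (θs i) = ⊤
  tri : ∀ i, (End.eigenspace A (θ i)).map B ≤
    ⨆ j : {j : Fin (d + 1) // (j : ℕ) ≤ i + 1 ∧ (i : ℕ) ≤ j + 1}, End.eigenspace A (θ j)
  tris : ∀ i, (End.eigenspace B (θs i)).map A ≤
    ⨆ j : {j : Fin (d + 1) // (j : ℕ) ≤ i + 1 ∧ (i : ℕ) ≤ j + 1}, End.eigenspace B (θs j)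
  irr : ∀ W : Submodule K V, W.map A ≤ W → W.map B ≤ W → W = ⊥ ∨ W = ⊤

/-- `S` is admissible: `S V_i = V_i` and `S (V^*_0 + ⋯ + V^*_i) = V^*_d + ⋯ + V^*_{d-i}`. -/
def Admissible {K V : Type*} [Field K] [AddCommGroup V] [Module K V] (d : ℕ)
    (A B : Module.End K V) (θ θs : Fin (d + 1) → K) (S : Module.End K V) : Prop :=
  ∀ i : Fin (d + 1), (End.eigenspace A (θ i)).map S = End.eigenspace A (θ i) ∧
    (⨆ j : {j : Fin (d + 1) // (j : ℕ) ≤ i}, End.eigenspace B (θs j)).map S =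
      ⨆ j : {j : Fin (d + 1) // d ≤ (j : ℕ) + i}, End.eigenspace B (θs j)

/-- `S` is diagonalizable: it has a diagonal matrix in some basis. -/
def Diagonalizable {K V : Type*} [Field K] [AddCommGroup V] [Module K V]
    (S : Module.End K V) : Prop :=
  ∃ (n : ℕ) (b : Basis (Fin n) K V), (LinearMap.toMatrix b b S).IsDiag

/-- `A` -/
def A : Module.End ℚ (Fin 4 → ℚ) :=
  Matrix.toLin' !![1, 0, 0, 0; 1, 0, 0, 0; 0, 0, 0, 0; 0, 1, -2, -1]

/-- `A^*` -/
def B : Module.End ℚ (Fin 4 → ℚ) :=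
  Matrix.toLin' !![1, -2, 1, 0; 0, 0, 0, 0; 0, 0, 0, 1; 0, 0, 0, -1]

/-- `S` -/
def S : Module.End ℚ (Fin 4 → ℚ) :=
  Matrix.toLin' !![-1, 0, 0, 0; 0, -1, 2, 0; 2, -2, 3, 0; -2, 0, 2, 3]

/-- the eigenvalues -/
def th : Fin (2 + 1) → ℚ := ![1, 0, -1]

theorem A_apply (x : Fin 4 → ℚ) : A x = ![x 0, x 0, 0, x 1 - 2 * x 2 - x 3] := by
  funext i
  fin_cases i <;> simp [A, Matrix.toLin'_apply, Matrix.mulVec, dotProduct, Fin.sum_univ_four]
  ring

theorem B_apply (x : Fin 4 → ℚ) : B x = ![x 0 - 2 * x 1 + x 2, 0, x 3, -x 3] := by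
  funext i
  fin_cases i <;> simp [B, Matrix.toLin'_apply, Matrix.mulVec, dotProduct, Fin.sum_univ_four]
  ring

theorem S_apply (x : Fin 4 → ℚ) : S x =
    ![-x 0, -x 1 + 2 * x 2, 2 * x 0 - 2 * x 1 + 3 * x 2, -2 * x 0 + 2 * x 2 + 3 * x 3] := by
  funext i
  fin_cases i <;> simp [S, Matrix.toLin'_apply, Matrix.mulVec, dotProduct, Fin.sum_univ_four]
  ring

/-- the inverse of `S` -/
def T (y : Fin 4 → ℚ) : Fin 4 → ℚ :=
  ![-y 0, -4 * y 0 + 3 * y 1 - 2 * y 2, -2 * y 0 + 2 * y 1 - y 2,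
    (2 * y 0 - 4 * y 1 + 2 * y 2 + y 3) / 3]

theorem S_T (y : Fin 4 → ℚ) : S (T y) = y := by
  rw [S_apply]
  funext i
  fin_cases i <;> simp [T] <;> ring

theorem memA (x : Fin 4 → ℚ) (t : ℚ) : x ∈ End.eigenspace A t ↔
    x 0 = t * x 0 ∧ x 0 = t * x 1 ∧ 0 = t * x 2 ∧ x 1 - 2 * x 2 - x 3 = t * x 3 := by
  rw [End.mem_eigenspace_iff, A_apply, funext_iff, Fin.forall_fin_succ, Fin.forall_fin_succ,
    Fin.forall_fin_succ, Fin.forall_fin_succ]
  simp

theorem memB (x : Fin 4 → ℚ) (t : ℚ) : x ∈ End.eigenspace B t ↔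
    x 0 - 2 * x 1 + x 2 = t * x 0 ∧ 0 = t * x 1 ∧ x 3 = t * x 2 ∧ -x 3 = t * x 3 := by
  rw [End.mem_eigenspace_iff, B_apply, funext_iff, Fin.forall_fin_succ, Fin.forall_fin_succ,
    Fin.forall_fin_succ, Fin.forall_fin_succ]
  simp

theorem A0 (x : Fin 4 → ℚ) : x ∈ End.eigenspace A (th 0) ↔
    x 1 = x 0 ∧ x 2 = 0 ∧ x 3 = x 0 / 2 := by
  rw [memA]
  simp only [th, Matrix.cons_val_zero, one_mul]
  constructor
  · rintro ⟨h1, h2, h3, h4⟩
    refine ⟨h2.symm, h3.symm, by linarith⟩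
  · rintro ⟨h1, h2, h3⟩
    exact ⟨trivial, h1.symm, h2.symm, by linarith⟩

theorem A1 (x : Fin 4 → ℚ) : x ∈ End.eigenspace A (th 1) ↔ x 0 = 0 ∧ x 3 = x 1 - 2 * x 2 := by
  rw [memA]
  simp only [th, Matrix.cons_val_one, Matrix.cons_val_zero, zero_mul]
  constructor
  · rintro ⟨h1, h2, h3, h4⟩
    exact ⟨h1, by linarith⟩
  · rintro ⟨h1, h2⟩
    exact ⟨h1, h1, trivial, by linarith⟩

theorem A2 (x : Fin 4 → ℚ) : x ∈ End.eigenspace A (th 2) ↔ x 0 = 0 ∧ x 1 = 0 ∧ x 2 = 0 := by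
  rw [memA]
  have : th 2 = -1 := rfl
  rw [this]
  constructor
  · rintro ⟨h1, h2, h3, h4⟩
    exact ⟨by linarith, by linarith, by linarith⟩
  · rintro ⟨h1, h2, h3⟩
    exact ⟨by linarith, by linarith, by linarith, by linarith⟩

theorem B0 (x : Fin 4 → ℚ) : x ∈ End.eigenspace B (th 0) ↔ x 1 = 0 ∧ x 2 = 0 ∧ x 3 = 0 := by
  rw [memB]
  simp only [th, Matrix.cons_val_zero, one_mul]
  constructor
  · rintro ⟨h1, h2, h3, h4⟩
    exact ⟨h2.symm, by linarith, by linarith⟩
  · rintro ⟨h1, h2, h3⟩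
    exact ⟨by linarith, h1.symm, by linarith, by linarith⟩

theorem B1 (x : Fin 4 → ℚ) : x ∈ End.eigenspace B (th 1) ↔ x 3 = 0 ∧ x 0 - 2 * x 1 + x 2 = 0 := by
  rw [memB]
  simp only [th, Matrix.cons_val_one, Matrix.cons_val_zero, zero_mul]
  constructor
  · rintro ⟨h1, h2, h3, h4⟩
    exact ⟨h3, h1⟩
  · rintro ⟨h1, h2⟩
    exact ⟨h2, trivial, h1, by linarith⟩

theorem B2 (x : Fin 4 → ℚ) : x ∈ End.eigenspace B (th 2) ↔
    x 1 = 0 ∧ x 3 = -x 2 ∧ x 2 = -2 * x 0 := by
  rw [memB]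
  have : th 2 = -1 := rfl
  rw [this]
  constructor
  · rintro ⟨h1, h2, h3, h4⟩
    exact ⟨by linarith, by linarith, by linarith⟩
  · rintro ⟨h1, h2, h3⟩
    exact ⟨by linarith, by linarith, by linarith, by linarith⟩

theorem decA (x : Fin 4 → ℚ) : ∃ u ∈ End.eigenspace A (th 0), ∃ v ∈ End.eigenspace A (th 1),
    ∃ w ∈ End.eigenspace A (th 2), x = u + v + w ∧ (x 0 = 0 → u = 0) ∧
      (x 3 + x 0 / 2 - x 1 + 2 * x 2 = 0 → w = 0) := by
  refine ⟨![x 0, x 0, 0, x 0 / 2], ?_, ![0, x 1 - x 0, x 2, x 1 - x 0 - 2 * x 2], ?_,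
    ![0, 0, 0, x 3 + x 0 / 2 - x 1 + 2 * x 2], ?_, ?_, ?_, ?_⟩
  · rw [A0]; simp
  · rw [A1]; simp
  · rw [A2]; simp
  · funext i
    fin_cases i <;> simp
    ring
  · intro h
    funext i
    fin_cases i <;> simp [h]
  · intro h
    funext i
    fin_cases i
    · simp
    · simp
    · simp
    · simpa using h

theorem decB (x : Fin 4 → ℚ) : ∃ u ∈ End.eigenspace B (th 0), ∃ v ∈ End.eigenspace B (th 1),
    ∃ w ∈ End.eigenspace B (th 2), x = u + v + w ∧ (x 3 = 0 → w = 0) ∧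
      (x 0 - 2 * x 1 + x 2 + x 3 / 2 = 0 → u = 0) := by
  refine ⟨![x 0 - 2 * x 1 + x 2 + x 3 / 2, 0, 0, 0], ?_,
    ![2 * x 1 - x 2 - x 3, x 1, x 2 + x 3, 0], ?_, ![x 3 / 2, 0, -x 3, x 3], ?_, ?_, ?_, ?_⟩
  · rw [B0]; simp
  · rw [B1]; simp; ring
  · rw [B2]; simp; ring
  · funext i
    fin_cases i <;> simp
    ring
  · intro h
    funext i
    fin_cases i <;> simp [h]
  · intro h
    funext i
    fin_cases i
    · simpa using h
    · simp
    · simp
    · simp

theorem th_inj : Function.Injective th := by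
  intro i j h
  fin_cases i <;> fin_cases j <;> simp [th] at h ⊢ <;> norm_num at h

theorem irr (W : Submodule ℚ (Fin 4 → ℚ)) (hA : W.map A ≤ W) (hB : W.map B ≤ W) :
    W = ⊥ ∨ W = ⊤ := by
  have hA' : ∀ x ∈ W, A x ∈ W := fun x hx => hA ⟨x, hx, rfl⟩
  have hB' : ∀ x ∈ W, B x ∈ W := fun x hx => hB ⟨x, hx, rfl⟩
  by_cases he : (![1, 0, 0, 0] : Fin 4 → ℚ) ∈ W
  · right
    have h1 : (![0, 1, 0, 0] : Fin 4 → ℚ) ∈ W := by
      have := W.sub_mem (hA' _ he) he
      rw [A_apply] at this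
      convert this using 1
      funext i
      fin_cases i <;> simp
    have h3 : (![0, 0, 0, 1] : Fin 4 → ℚ) ∈ W := by
      have := hA' _ h1
      rw [A_apply] at this
      convert this using 1
      funext i
      fin_cases i <;> simp
    have h2 : (![0, 0, 1, 0] : Fin 4 → ℚ) ∈ W := by
      have := W.add_mem (hB' _ h3) h3
      rw [B_apply] at this
      convert this using 1
      funext i
      fin_cases i <;> simp
    rw [Submodule.eq_top_iff']
    intro x
    have : x = x 0 • ![1, 0, 0, 0] + x 1 • ![0, 1, 0, 0] + x 2 • ![0, 0, 1, 0] +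
        x 3 • ![0, 0, 0, 1] := by
      funext i
      fin_cases i <;> simp
    rw [this]
    exact W.add_mem (W.add_mem (W.add_mem (W.smul_mem _ he) (W.smul_mem _ h1))
      (W.smul_mem _ h2)) (W.smul_mem _ h3)
  · left
    have hc : ∀ x ∈ W, 2 * x 0 - 4 * x 1 + 2 * x 2 + x 3 = 0 := by
      intro x hx
      by_contra hne
      apply he
      have h1 := hB' _ hx
      have h2 := hB' _ h1
      have h5 : B (B x) + B x = (2 * x 0 - 4 * x 1 + 2 * x 2 + x 3) • ![1, 0, 0, 0] := by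
        funext i
        simp only [Pi.add_apply, Pi.smul_apply, smul_eq_mul, B_apply]
        fin_cases i <;> simp <;> ring
      have h6 := W.smul_mem (2 * x 0 - 4 * x 1 + 2 * x 2 + x 3)⁻¹ (W.add_mem h2 h1)
      rw [h5, smul_smul, inv_mul_cancel₀ hne, one_smul] at h6
      exact h6
    rw [Submodule.eq_bot_iff]
    intro x hx
    have c1 := hc _ hx
    have c2 := hc _ (hA' _ hx)
    have c3 := hc _ (hA' _ (hA' _ hx))
    have c4 := hc _ (hA' _ (hA' _ (hB' _ hx)))
    simp only [A_apply, B_apply] at c2 c3 c4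
    simp at c2 c3 c4
    have e1 : x 1 = 0 := by linarith
    have e0 : x 0 = 0 := by linarith
    have e2 : x 2 = 0 := by linarith
    have e3 : x 3 = 0 := by linarith
    funext i
    fin_cases i <;> simp [e0, e1, e2, e3]

theorem pair : TDPair 2 A B th th where
  inj := th_inj
  injs := th_inj
  ne i := by
    have : ∃ x ∈ End.eigenspace A (th i), x ≠ 0 := by
      fin_cases i
      · refine ⟨![2, 2, 0, 1], (A0 _).2 (by simp), fun h => ?_⟩
        simpa using congrFun h 0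
      · refine ⟨![0, 1, 0, 1], (A1 _).2 (by simp), fun h => ?_⟩
        simpa using congrFun h 1
      · refine ⟨![0, 0, 0, 1], (A2 _).2 (by simp), fun h => ?_⟩
        simpa using congrFun h 3
    obtain ⟨x, hx, hx0⟩ := this
    exact fun h => hx0 (by rw [h] at hx; simpa using hx)
  nes i := by
    have : ∃ x ∈ End.eigenspace B (th i), x ≠ 0 := by
      fin_cases i
      · refine ⟨![1, 0, 0, 0], (B0 _).2 (by simp), fun h => ?_⟩
        simpa using congrFun h 0
      · refine ⟨![2, 1, 0, 0], (B1 _).2 (by simp), fun h => ?_⟩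
        simpa using congrFun h 1
      · refine ⟨![1, 0, -2, 2], (B2 _).2 (by simp), fun h => ?_⟩
        simpa using congrFun h 0
    obtain ⟨x, hx, hx0⟩ := this
    exact fun h => hx0 (by rw [h] at hx; simpa using hx)
  top := by
    rw [Submodule.eq_top_iff']
    intro x
    obtain ⟨u, hu, v, hv, w, hw, rfl, -⟩ := decA x
    exact Submodule.add_mem _ (Submodule.add_mem _
      (Submodule.mem_iSup_of_mem (0 : Fin 3) hu) (Submodule.mem_iSup_of_mem (1 : Fin 3) hv))
      (Submodule.mem_iSup_of_mem (2 : Fin 3) hw)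
  tops := by
    rw [Submodule.eq_top_iff']
    intro x
    obtain ⟨u, hu, v, hv, w, hw, rfl, -⟩ := decB x
    exact Submodule.add_mem _ (Submodule.add_mem _
      (Submodule.mem_iSup_of_mem (0 : Fin 3) hu) (Submodule.mem_iSup_of_mem (1 : Fin 3) hv))
      (Submodule.mem_iSup_of_mem (2 : Fin 3) hw)
  tri i := by
    rintro _ ⟨x, hx, rfl⟩
    obtain ⟨u, hu, v, hv, w, hw, hsum, h0, h2⟩ := decA (B x)
    rw [hsum]
    refine Submodule.add_mem _ (Submodule.add_mem _ ?_ ?_) ?_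
    · by_cases hi : i = 2
      · subst hi
        have h1 := (A2 x).1 hx
        rw [h0 (by rw [B_apply]; simp; linarith [h1.1, h1.2.1, h1.2.2])]
        exact Submodule.zero_mem _
      · have : (i : ℕ) ≤ 1 := by
          have := i.2
          have h3 : (i : ℕ) ≠ 2 := fun h => hi (Fin.ext h)
          omega
        exact Submodule.mem_iSup_of_mem ⟨(0 : Fin 3), by simp; omega⟩ hu
    · exact Submodule.mem_iSup_of_mem ⟨(1 : Fin 3), by simp; omega⟩ hv
    · by_cases hi : i = 0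
      · subst hi
        have h1 := (A0 x).1 hx
        rw [h2 (by rw [B_apply]; simp; linarith [h1.1, h1.2.1, h1.2.2])]
        exact Submodule.zero_mem _
      · have : (1 : ℕ) ≤ i := Nat.one_le_iff_ne_zero.2 fun h => hi (Fin.ext h)
        exact Submodule.mem_iSup_of_mem ⟨(2 : Fin 3), by simp; omega⟩ hw
  tris i := by
    rintro _ ⟨x, hx, rfl⟩
    obtain ⟨u, hu, v, hv, w, hw, hsum, h2, h0⟩ := decB (A x)
    rw [hsum]
    refine Submodule.add_mem _ (Submodule.add_mem _ ?_ ?_) ?_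
    · by_cases hi : i = 2
      · subst hi
        have h1 := (B2 x).1 hx
        rw [h0 (by rw [A_apply]; simp; linarith [h1.1, h1.2.1, h1.2.2])]
        exact Submodule.zero_mem _
      · have : (i : ℕ) ≤ 1 := by
          have := i.2
          have h3 : (i : ℕ) ≠ 2 := fun h => hi (Fin.ext h)
          omega
        exact Submodule.mem_iSup_of_mem ⟨(0 : Fin 3), by simp; omega⟩ hu
    · exact Submodule.mem_iSup_of_mem ⟨(1 : Fin 3), by simp; omega⟩ hv
    · by_cases hi : i = 0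
      · subst hi
        have h1 := (B0 x).1 hx
        rw [h2 (by rw [A_apply]; simp; linarith [h1.1, h1.2.1, h1.2.2])]
        exact Submodule.zero_mem _
      · have : (1 : ℕ) ≤ i := Nat.one_le_iff_ne_zero.2 fun h => hi (Fin.ext h)
        exact Submodule.mem_iSup_of_mem ⟨(2 : Fin 3), by simp; omega⟩ hw
  irr := irr

/-- two submodules exchanged by `S` and `T` -/
theorem map_eq (X Y : Submodule ℚ (Fin 4 → ℚ)) (h1 : ∀ x ∈ X, S x ∈ Y) (h2 : ∀ y ∈ Y, T y ∈ X) :
    X.map S = Y := by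
  refine le_antisymm ?_ ?_
  · rintro _ ⟨x, hx, rfl⟩
    exact h1 x hx
  · intro y hy
    exact ⟨T y, h2 y hy, S_T y⟩

theorem low0 (x : Fin 4 → ℚ) :
    x ∈ (⨆ j : {j : Fin (2 + 1) // (j : ℕ) ≤ ((0 : Fin (2 + 1)) : ℕ)}, End.eigenspace B (th j)) ↔
      x 1 = 0 ∧ x 2 = 0 ∧ x 3 = 0 := by
  constructor
  · intro hx
    have : (⨆ j : {j : Fin (2 + 1) // (j : ℕ) ≤ ((0 : Fin (2 + 1)) : ℕ)},
        End.eigenspace B (th j)) ≤ End.eigenspace B (th 0) := by
      refine iSup_le ?_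
      rintro ⟨j, hj⟩
      have : j = 0 := Fin.ext (by simpa using hj)
      subst this
      exact le_rfl
    exact (B0 x).1 (this hx)
  · intro hx
    exact Submodule.mem_iSup_of_mem ⟨(0 : Fin 3), by simp⟩ ((B0 x).2 hx)

/-- the hyperplane `V^*_0 + V^*_1` -/
def H1 : Submodule ℚ (Fin 4 → ℚ) where
  carrier := {x | x 3 = 0}
  add_mem' {x y} hx hy := by
    simp only [Set.mem_ofPred_eq, Pi.add_apply] at *
    rw [hx, hy, add_zero]
  zero_mem' := rfl
  smul_mem' c x hx := by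
    simp only [Set.mem_ofPred_eq, Pi.smul_apply, smul_eq_mul] at *
    rw [hx, mul_zero]

/-- the hyperplane `V^*_1 + V^*_2` -/
def H2 : Submodule ℚ (Fin 4 → ℚ) where
  carrier := {x | x 0 - 2 * x 1 + x 2 + x 3 / 2 = 0}
  add_mem' {x y} hx hy := by
    simp only [Set.mem_ofPred_eq, Pi.add_apply] at *
    linarith
  zero_mem' := by simp
  smul_mem' c x hx := by
    simp only [Set.mem_ofPred_eq, Pi.smul_apply, smul_eq_mul] at *
    linear_combination c * hx

theorem low1 (x : Fin 4 → ℚ) :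
    x ∈ (⨆ j : {j : Fin (2 + 1) // (j : ℕ) ≤ ((1 : Fin (2 + 1)) : ℕ)}, End.eigenspace B (th j)) ↔
      x 3 = 0 := by
  constructor
  · intro hx
    have : (⨆ j : {j : Fin (2 + 1) // (j : ℕ) ≤ ((1 : Fin (2 + 1)) : ℕ)},
        End.eigenspace B (th j)) ≤ H1 := by
      refine iSup_le ?_
      rintro ⟨j, hj⟩
      fin_cases j
      · intro y hy
        exact ((B0 y).1 hy).2.2
      · intro y hy
        exact ((B1 y).1 hy).1
      · simp at hj
    exact this hx
  · intro hx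
    obtain ⟨u, hu, v, hv, w, hw, hsum, h2, -⟩ := decB x
    rw [hsum, h2 hx, add_zero]
    exact Submodule.add_mem _ (Submodule.mem_iSup_of_mem ⟨(0 : Fin 3), by simp⟩ hu)
      (Submodule.mem_iSup_of_mem ⟨(1 : Fin 3), by simp⟩ hv)

theorem high0 (x : Fin 4 → ℚ) :
    x ∈ (⨆ j : {j : Fin (2 + 1) // 2 ≤ (j : ℕ) + ((0 : Fin (2 + 1)) : ℕ)},
      End.eigenspace B (th j)) ↔ x 1 = 0 ∧ x 3 = -x 2 ∧ x 2 = -2 * x 0 := by
  constructor
  · intro hx
    have : (⨆ j : {j : Fin (2 + 1) // 2 ≤ (j : ℕ) + ((0 : Fin (2 + 1)) : ℕ)},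
        End.eigenspace B (th j)) ≤ End.eigenspace B (th 2) := by
      refine iSup_le ?_
      rintro ⟨j, hj⟩
      fin_cases j
      · simp at hj
      · simp at hj
      · exact le_rfl
    exact (B2 x).1 (this hx)
  · intro hx
    exact Submodule.mem_iSup_of_mem ⟨(2 : Fin 3), by simp⟩ ((B2 x).2 hx)

theorem high1 (x : Fin 4 → ℚ) :
    x ∈ (⨆ j : {j : Fin (2 + 1) // 2 ≤ (j : ℕ) + ((1 : Fin (2 + 1)) : ℕ)},
      End.eigenspace B (th j)) ↔ x 0 - 2 * x 1 + x 2 + x 3 / 2 = 0 := by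
  constructor
  · intro hx
    have : (⨆ j : {j : Fin (2 + 1) // 2 ≤ (j : ℕ) + ((1 : Fin (2 + 1)) : ℕ)},
        End.eigenspace B (th j)) ≤ H2 := by
      refine iSup_le ?_
      rintro ⟨j, hj⟩
      fin_cases j
      · simp at hj
      · intro y hy
        have := (B1 y).1 hy
        change y 0 - 2 * y 1 + y 2 + y 3 / 2 = 0
        linarith [this.1, this.2]
      · intro y hy
        have := (B2 y).1 hy
        change y 0 - 2 * y 1 + y 2 + y 3 / 2 = 0
        linarith [this.1, this.2.1, this.2.2]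
    exact this hx
  · intro hx
    obtain ⟨u, hu, v, hv, w, hw, hsum, -, h0⟩ := decB x
    rw [hsum, h0 hx, zero_add]
    exact Submodule.add_mem _ (Submodule.mem_iSup_of_mem ⟨(1 : Fin 3), by simp⟩ hv)
      (Submodule.mem_iSup_of_mem ⟨(2 : Fin 3), by simp⟩ hw)

theorem low2 (x : Fin 4 → ℚ) :
    x ∈ (⨆ j : {j : Fin (2 + 1) // (j : ℕ) ≤ ((2 : Fin (2 + 1)) : ℕ)}, End.eigenspace B (th j)) := by
  obtain ⟨u, hu, v, hv, w, hw, hsum, -, -⟩ := decB x
  rw [hsum]
  exact Submodule.add_mem _ (Submodule.add_mem _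
    (Submodule.mem_iSup_of_mem ⟨(0 : Fin 3), by simp⟩ hu)
    (Submodule.mem_iSup_of_mem ⟨(1 : Fin 3), by simp⟩ hv))
    (Submodule.mem_iSup_of_mem ⟨(2 : Fin 3), by simp⟩ hw)

theorem high2 (x : Fin 4 → ℚ) :
    x ∈ (⨆ j : {j : Fin (2 + 1) // 2 ≤ (j : ℕ) + ((2 : Fin (2 + 1)) : ℕ)},
      End.eigenspace B (th j)) := by
  obtain ⟨u, hu, v, hv, w, hw, hsum, -, -⟩ := decB x
  rw [hsum]
  exact Submodule.add_mem _ (Submodule.add_mem _
    (Submodule.mem_iSup_of_mem ⟨(0 : Fin 3), by simp⟩ hu)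
    (Submodule.mem_iSup_of_mem ⟨(1 : Fin 3), by simp⟩ hv))
    (Submodule.mem_iSup_of_mem ⟨(2 : Fin 3), by simp⟩ hw)

theorem admissible : Admissible 2 A B th th S := by
  intro i
  fin_cases i
  · refine ⟨map_eq _ _ (fun x hx => ?_) (fun x hx => ?_),
      map_eq _ _ (fun x hx => ?_) (fun x hx => ?_)⟩
    · have := (A0 x).1 hx
      rw [S_apply]
      refine (A0 _).2 ?_
      simp
      refine ⟨?_, ?_, ?_⟩ <;> linarith [this.1, this.2.1, this.2.2]
    · have := (A0 x).1 hx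
      refine (A0 _).2 ?_
      simp [T]
      refine ⟨?_, ?_, ?_⟩ <;> linarith [this.1, this.2.1, this.2.2]
    · have := (low0 x).1 hx
      rw [S_apply]
      refine (high0 _).2 ?_
      simp
      refine ⟨?_, ?_, ?_⟩ <;> linarith [this.1, this.2.1, this.2.2]
    · have := (high0 x).1 hx
      refine (low0 _).2 ?_
      simp [T]
      refine ⟨?_, ?_, ?_⟩ <;> linarith [this.1, this.2.1, this.2.2]
  · refine ⟨map_eq _ _ (fun x hx => ?_) (fun x hx => ?_),
      map_eq _ _ (fun x hx => ?_) (fun x hx => ?_)⟩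
    · have := (A1 x).1 hx
      rw [S_apply]
      refine (A1 _).2 ?_
      simp
      refine ⟨?_, ?_⟩ <;> linarith [this.1, this.2]
    · have := (A1 x).1 hx
      refine (A1 _).2 ?_
      simp [T]
      refine ⟨?_, ?_⟩ <;> linarith [this.1, this.2]
    · have := (low1 x).1 hx
      rw [S_apply]
      refine (high1 _).2 ?_
      simp
      linarith
    · have := (high1 x).1 hx
      refine (low1 _).2 ?_
      simp [T]
      linarith
  · refine ⟨map_eq _ _ (fun x hx => ?_) (fun x hx => ?_),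
      map_eq _ _ (fun x hx => high2 _) (fun x hx => low2 _)⟩
    · have := (A2 x).1 hx
      rw [S_apply]
      refine (A2 _).2 ?_
      simp
      refine ⟨?_, ?_, ?_⟩ <;> linarith [this.1, this.2.1, this.2.2]
    · have := (A2 x).1 hx
      refine (A2 _).2 ?_
      simp [T]
      refine ⟨?_, ?_, ?_⟩ <;> linarith [this.1, this.2.1, this.2.2]

theorem not_diag : ¬ Diagonalizable S := by
  rintro ⟨n, b, hb⟩
  have hS : ∀ i, S (b i) = LinearMap.toMatrix b b S i i • b i := by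
    intro i
    conv_lhs => rw [← b.sum_repr (S (b i))]
    rw [Finset.sum_eq_single i]
    · rw [LinearMap.toMatrix_apply]
    · intro j _ hj
      have : LinearMap.toMatrix b b S j i = 0 := hb hj
      rw [LinearMap.toMatrix_apply] at this
      rw [this, zero_smul]
    · intro h'
      exact absurd (Finset.mem_univ i) h'
  have hrepr : ∀ x i, b.repr (S x) i = LinearMap.toMatrix b b S i i * b.repr x i := by
    intro x i
    conv_lhs => rw [← b.sum_repr x]
    rw [map_sum, map_sum, Finsupp.finsetSum_apply, Finset.sum_eq_single i]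
    · rw [map_smul, hS, map_smul, map_smul, Finsupp.smul_apply, Finsupp.smul_apply, b.repr_self,
        Finsupp.single_eq_same, smul_eq_mul, smul_eq_mul, mul_one, mul_comm]
    · intro j _ hj
      rw [map_smul, hS, map_smul, map_smul, Finsupp.smul_apply, Finsupp.smul_apply, b.repr_self,
        Finsupp.single_eq_of_ne (Ne.symm hj), smul_zero, smul_zero]
    · simp
  -- `x = (0, 1, 0, 1)` satisfies `(S - 1)² x = 0` and `(S - 1) x ≠ 0`
  let x : Fin 4 → ℚ := ![0, 1, 0, 1]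
  have h1 : S (S x) - (2 : ℚ) • S x + x = 0 := by
    funext i
    simp only [Pi.add_apply, Pi.sub_apply, Pi.smul_apply, smul_eq_mul, S_apply]
    fin_cases i <;> simp [x] <;> norm_num
  have h2 : S x - x ≠ 0 := by
    intro h
    have := congrFun h 1
    rw [Pi.sub_apply, S_apply] at this
    simp [x] at this
    norm_num at this
  apply h2
  apply b.ext_elem
  intro i
  have h3 := congrArg (fun y => b.repr y i) h1
  simp only [map_add, map_sub, map_smul, Finsupp.add_apply, Finsupp.sub_apply,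
    Finsupp.smul_apply, smul_eq_mul, hrepr, map_zero, Finsupp.zero_apply] at h3
  rw [map_sub, Finsupp.sub_apply, hrepr, map_zero, Finsupp.zero_apply]
  set μ := LinearMap.toMatrix b b S i i
  set y := b.repr x i
  have h4 : (μ * y - y) * (μ * y - y) = 0 := by
    linear_combination y * h3
  exact mul_self_eq_zero.1 h4

/-- There are a tridiagonal pair `A, A^*` on `ℚ⁴` (with `d = 2`) with fixed orderings of the
eigenspaces and an admissible map `S` for it that is not diagonalizable. -/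
theorem result : ∃ (A B : Module.End ℚ (Fin 4 → ℚ)) (θ θs : Fin (2 + 1) → ℚ)
    (S : Module.End ℚ (Fin 4 → ℚ)),
    TDPair 2 A B θ θs ∧ Admissible 2 A B θ θs S ∧ ¬ Diagonalizable S :=
  ⟨A, B, th, th, S, pair, admissible, not_diag⟩

end Pool.Agent.Results.MP_6ebba1_al.NotDiagonalizable
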